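import Pool.Agent.N949.PG.Def

/-! Project PG (helper949), job HUL: the enclosed cells are in the convex hull (helper40). -/

set_option autoImplicit false

namespace Pool.Agent.N40.PG

open Pool.Agent.N949.PG Pool.Agent.N941.SP

/-- the edge `k` joins the columns `a` and `a + 1` -/
def Cross (m : ℕ) (f : ZMod m → ℤ × ℤ) (a : ℤ) (k : ZMod m) : Prop :=
  ((f k).1 = a ∧ (f (k + 1)).1 = a + 1) ∨ ((f k).1 = a + 1 ∧ (f (k + 1)).1 = a)

lemma step_cases {m : ℕ} {f : ZMod m → ℤ × ℤ} (hf : IsLoop m f) (k : ZMod m) :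
    ((f (k + 1)).1 = (f k).1 ∧ ((f (k + 1)).2 = (f k).2 + 1 ∨ (f (k + 1)).2 = (f k).2 - 1)) ∨
    ((f (k + 1)).2 = (f k).2 ∧ ((f (k + 1)).1 = (f k).1 + 1 ∨ (f (k + 1)).1 = (f k).1 - 1)) := by
  have h := hf.2.2 k
  have h1 := abs_nonneg ((f (k + 1)).1 - (f k).1)
  have h2 := abs_nonneg ((f (k + 1)).2 - (f k).2)
  rcases (by omega : |(f (k + 1)).1 - (f k).1| = 0 ∨ |(f (k + 1)).1 - (f k).1| = 1) with h3 | h3
  · have h4 : |(f (k + 1)).2 - (f k).2| = 1 := by omega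
    rw [abs_eq_zero] at h3
    rcases (abs_eq (by norm_num)).1 h4 with h5 | h5 <;> omega
  · have h4 : |(f (k + 1)).2 - (f k).2| = 0 := by omega
    rw [abs_eq_zero] at h4
    rcases (abs_eq (by norm_num)).1 h3 with h5 | h5 <;> omega

lemma even_cross {m : ℕ} [NeZero m] {f : ZMod m → ℤ × ℤ} (hf : IsLoop m f) (a : ℤ) :
    Even (Nat.card {k : ZMod m // Cross m f a k}) := by
  classical
  rw [Nat.card_eq_fintype_card, Fintype.card_subtype, ← ZMod.natCast_eq_zero_iff_even]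
  rw [Finset.card_eq_sum_ones, Nat.cast_sum, Finset.sum_filter]
  set χ : ZMod m → ZMod 2 := fun k => if (f k).1 ≤ a then 1 else 0 with hχ
  have h1 : ∀ k : ZMod m, (if Cross m f a k then ((1 : ℕ) : ZMod 2) else 0) = χ (k + 1) + χ k := by
    intro k
    have hc := step_cases hf k
    simp only [hχ]
    unfold Cross
    have h11 : (1 : ZMod 2) + 1 = 0 := by decide
    split_ifs with h2 h3 h4 h3 h5 h6 h7 <;> first
      | (exfalso; omega)
      | simp [h11]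
  rw [Finset.sum_congr rfl fun k _ => h1 k, Finset.sum_add_distrib]
  have h2 : ∑ k : ZMod m, χ (k + 1) = ∑ k : ZMod m, χ k := Equiv.sum_comp (Equiv.addRight (1 : ZMod m)) χ
  rw [h2]
  have h3 : ∀ x : ZMod 2, x + x = 0 := by decide
  exact h3 _

/-- the four vertices around an enclosed cell -/
lemma four {m : ℕ} [NeZero m] {f : ZMod m → ℤ × ℤ} (hf : IsLoop m f) {a b : ℤ} (hc : Encl m f (a, b)) :
    ∃ y1 y2 : ℤ, y2 ≤ b ∧ b < y1 ∧ (∃ i, f i = (a, y1)) ∧ (∃ i, f i = (a + 1, y1)) ∧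
      (∃ i, f i = (a, y2)) ∧ (∃ i, f i = (a + 1, y2)) := by
  classical
  unfold Encl at hc
  simp only at hc
  have hedge : ∀ k, Cross m f a k → (∃ i, f i = (a, (f k).2)) ∧ (∃ i, f i = (a + 1, (f k).2)) := by
    intro k hk
    have hs := step_cases hf k
    unfold Cross at hk
    rcases hk with ⟨h1, h2⟩ | ⟨h1, h2⟩
    · refine ⟨⟨k, by ext <;> simp [h1]⟩, ⟨k + 1, ?_⟩⟩
      have : (f (k + 1)).2 = (f k).2 := by omega
      ext <;> simp [h2, this]
    · refine ⟨⟨k + 1, ?_⟩, ⟨k, by ext <;> simp [h1]⟩⟩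
      have : (f (k + 1)).2 = (f k).2 := by omega
      ext <;> simp [h2, this]
  have h1 : ∃ k, Above m f a b k := by
    by_contra hcon
    push Not at hcon
    have : IsEmpty {k : ZMod m // Above m f a b k} := ⟨fun k => hcon k.1 k.2⟩
    rw [Nat.card_of_isEmpty] at hc
    exact absurd hc (by decide)
  have h2 : ∃ k, Cross m f a k ∧ ¬ Above m f a b k := by
    by_contra hcon
    push Not at hcon
    have h3 : ∀ k, Cross m f a k ↔ Above m f a b k := fun k => ⟨hcon k, fun h => h.1⟩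
    have h4 := even_cross hf a
    have h5 : Nat.card {k : ZMod m // Cross m f a k} = Nat.card {k : ZMod m // Above m f a b k} :=
      Nat.card_congr (Equiv.subtypeEquivRight h3)
    rw [h5] at h4
    exact (Nat.not_even_iff_odd.2 hc) h4
  obtain ⟨k1, hk1⟩ := h1
  obtain ⟨k2, hk2, hk2'⟩ := h2
  have hA := hedge k1 hk1.1
  have hB := hedge k2 hk2
  have hle : (f k2).2 ≤ b := by
    by_contra hcon
    exact hk2' ⟨hk2, by omega⟩
  exact ⟨(f k1).2, (f k2).2, hle, hk1.2, hA.1, hA.2, hB.1, hB.2⟩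

lemma conv_rect {S : Set ℂ} (hS : Convex ℝ S) {a y1 y2 : ℤ} (hy : y2 < y1)
    (h1 : pt (a, y1) ∈ S) (h2 : pt (a + 1, y1) ∈ S) (h3 : pt (a, y2) ∈ S) (h4 : pt (a + 1, y2) ∈ S)
    {z : ℂ} (hz1 : (a : ℝ) ≤ z.re) (hz2 : z.re ≤ a + 1) (hz3 : (y2 : ℝ) ≤ z.im) (hz4 : z.im ≤ y1) :
    z ∈ S := by
  have hrow : ∀ y : ℤ, pt (a, y) ∈ S → pt (a + 1, y) ∈ S → (⟨z.re, y⟩ : ℂ) ∈ S := by
    intro y h5 h6
    have h7 := hS h5 h6 (a := 1 - (z.re - a)) (b := z.re - a) (by linarith) (by linarith) (by ring)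
    have h8 : (1 - (z.re - a)) • pt (a, y) + (z.re - a) • pt (a + 1, y) = (⟨z.re, y⟩ : ℂ) := by
      apply Complex.ext
      · simp [pt]; ring
      · simp [pt]; ring
    rwa [h8] at h7
  have h5 := hrow y1 h1 h2
  have h6 := hrow y2 h3 h4
  have hy' : (0 : ℝ) < (y1 : ℝ) - y2 := by
    have : (y2 : ℝ) < y1 := by exact_mod_cast hy
    linarith
  obtain ⟨t, ht⟩ : ∃ t : ℝ, t = (z.im - y2) / (y1 - y2) := ⟨_, rfl⟩
  have ht0 : 0 ≤ t := by rw [ht]; exact div_nonneg (by linarith) hy'.le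
  have ht1 : t ≤ 1 := by rw [ht, div_le_one hy']; linarith
  have ht2 : t * ((y1 : ℝ) - y2) = z.im - y2 := by rw [ht, div_mul_cancel₀ _ hy'.ne']
  have h7 := hS h6 h5 (a := 1 - t) (b := t) (by linarith) ht0 (by ring)
  have h8 : (1 - t) • (⟨z.re, y2⟩ : ℂ) + t • (⟨z.re, y1⟩ : ℂ) = z := by
    apply Complex.ext
    · simp only [Complex.add_re, Complex.real_smul, Complex.mul_re, Complex.ofReal_re, Complex.ofReal_im]
      ring
    · simp only [Complex.add_im, Complex.real_smul, Complex.mul_im, Complex.ofReal_re, Complex.ofReal_im]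
      linarith
  rwa [h8] at h7

/-- a convex set which contains the vertices contains the enclosed cells -/
lemma cell_sub {m : ℕ} [NeZero m] {f : ZMod m → ℤ × ℤ} (hf : IsLoop m f) {S : Set ℂ} (hS : Convex ℝ S)
    (hv : ∀ i, pt (f i) ∈ S) {c : ℤ × ℤ} (hc : Encl m f c) : ∀ z ∈ cell c, z ∈ S := by
  intro z hz
  obtain ⟨a, b⟩ := c
  obtain ⟨y1, y2, h1, h2, ⟨i1, hi1⟩, ⟨i2, hi2⟩, ⟨i3, hi3⟩, ⟨i4, hi4⟩⟩ := four hf hc
  unfold cell at hz
  simp only [Set.mem_ofPred_eq] at hz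
  have h3 : (y2 : ℝ) ≤ b := by exact_mod_cast h1
  have h4 : (b : ℝ) + 1 ≤ y1 := by exact_mod_cast h2
  exact conv_rect hS (by omega) (hi1 ▸ hv i1) (hi2 ▸ hv i2) (hi3 ▸ hv i3) (hi4 ▸ hv i4) hz.1 hz.2.1
    (by linarith [hz.2.2.1]) (by linarith [hz.2.2.2])

theorem t_HUL : Pool.Agent.N949.PG.S_HUL := by
  intro m f D hm hf hD c c' hc hc' z hz w hw
  have : NeZero m := ⟨by omega⟩
  have h1 : ∀ j, ‖z - pt (f j)‖ ≤ D := by
    intro j
    have h2 := cell_sub hf (convex_closedBall (pt (f j)) D) (fun i => by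
      rw [mem_closedBall_iff_norm]; exact hD i j) hc z hz
    rwa [mem_closedBall_iff_norm] at h2
  have h3 := cell_sub hf (convex_closedBall z D) (fun i => by
      rw [mem_closedBall_iff_norm, norm_sub_rev]; exact h1 i) hc' w hw
  rwa [mem_closedBall_iff_norm, norm_sub_rev] at h3

theorem encl_finite {m : ℕ} {f : ZMod m → ℤ × ℤ} (hm : 4 ≤ m) (hf : IsLoop m f) :
    {c : ℤ × ℤ | Encl m f c}.Finite := by
  have : NeZero m := ⟨by omega⟩
  have h1 : (⋃ p : ZMod m × ZMod m, ({(f p.1).1} : Set ℤ) ×ˢ Set.Icc (f p.2).2 (f p.1).2).Finite := by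
    apply Set.finite_iUnion
    intro p
    exact (Set.finite_singleton _).prod (Set.finite_Icc _ _)
  refine h1.subset ?_
  rintro ⟨a, b⟩ hc
  obtain ⟨y1, y2, h1, h2, ⟨i1, hi1⟩, -, ⟨i3, hi3⟩, -⟩ := four hf hc
  rw [Set.mem_iUnion]
  refine ⟨(i1, i3), ?_⟩
  simp only [Set.mem_prod, Set.mem_singleton_iff, Set.mem_Icc, hi1, hi3]
  exact ⟨trivial, h1, by omega⟩

end Pool.Agent.N40.PG
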